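import Pool.Agent.W422.PI.Stm

/-!
Project PI (helper422), part NFU: unimodular alternating matrices over a ring of stable range one
are congruent to the standard symplectic matrix.
-/

set_option autoImplicit false

namespace Pool.Agent.W249.PI

open Matrix Pool.Agent.W422.PI

section general

variable {R : Type*} [CommRing R] {ι κ : Type*} [Fintype ι] [DecidableEq ι] [Fintype κ]
  [DecidableEq κ]

/-- `A` is of the form `Q B Qᵀ` with `Q` invertible -/
def Cg (A B : Matrix ι ι R) : Prop :=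
  ∃ Q : Matrix ι ι R, IsUnit Q.det ∧ A = Q * B * Qᵀ

lemma Cg.trans {A B C : Matrix ι ι R} (h1 : Cg A B) (h2 : Cg B C) : Cg A C := by
  obtain ⟨Q, hQ, rfl⟩ := h1
  obtain ⟨P, hP, rfl⟩ := h2
  refine ⟨Q * P, ?_, ?_⟩
  · rw [det_mul]; exact hQ.mul hP
  · rw [transpose_mul]; simp only [Matrix.mul_assoc]

lemma Cg.symm {A B : Matrix ι ι R} (h1 : Cg A B) : Cg B A := by
  obtain ⟨Q, hQ, rfl⟩ := h1
  refine ⟨Q⁻¹, ?_, ?_⟩
  · rw [det_nonsing_inv]
    exact IsUnit.ringInverse hQ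
  · have hQt : IsUnit Qᵀ.det := by rw [det_transpose]; exact hQ
    have e1 : Q⁻¹ * (Q * B * Qᵀ) * (Q⁻¹)ᵀ = (Q⁻¹ * Q) * B * (Qᵀ * (Q⁻¹)ᵀ) := by
      simp only [Matrix.mul_assoc]
    rw [e1, nonsing_inv_mul Q hQ, transpose_nonsing_inv, mul_nonsing_inv _ hQt]
    simp

lemma alt_form {B : Matrix ι ι R} (hB : Alt B) (v : ι → R) :
    ∑ x, ∑ y, v x * B x y * v y = 0 := by
  rw [← Finset.sum_product']
  refine Finset.sum_involution (fun p _ => Prod.swap p) ?_ ?_ ?_ ?_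
  · rintro ⟨x, y⟩ _
    have h := congrFun (congrFun hB.1 x) y
    simp only [transpose_apply, Matrix.neg_apply] at h
    simp only [Prod.swap_prod_mk]
    rw [h]; ring
  · rintro ⟨x, y⟩ _ h1 h2
    simp only [Prod.swap_prod_mk, Prod.mk.injEq] at h2
    apply h1
    rw [h2.1, hB.2]
    ring
  · rintro ⟨x, y⟩ _
    simp
  · rintro ⟨x, y⟩ _
    simp

omit [Fintype κ] [DecidableEq κ] in
lemma alt_cg {B : Matrix ι ι R} (hB : Alt B) (Q : Matrix κ ι R) : Alt (Q * B * Qᵀ) := by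
  refine ⟨?_, ?_⟩
  · rw [transpose_mul, transpose_mul, transpose_transpose, hB.1]
    simp [Matrix.mul_assoc]
  · intro i
    have h := alt_form hB (fun x => Q i x)
    rw [Matrix.mul_apply]
    simp only [Matrix.mul_apply, transpose_apply, Finset.sum_mul]
    rw [Finset.sum_comm]
    exact h

lemma Cg.alt {A B : Matrix ι ι R} (h : Cg A B) (hB : Alt B) : Alt A := by
  obtain ⟨Q, _, rfl⟩ := h
  exact alt_cg hB Q

lemma Cg.det {A B : Matrix ι ι R} (h : Cg A B) (hA : IsUnit A.det) : IsUnit B.det := by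
  obtain ⟨Q, hQ, rfl⟩ := h
  rw [det_mul, det_mul] at hA
  exact isUnit_of_mul_isUnit_right (isUnit_of_mul_isUnit_left hA)

end general

/-- the standard alternating 2 by 2 matrix -/
def J1 (R : Type*) [CommRing R] : Matrix (Fin 2) (Fin 2) R := !![0, 1; -1, 0]

section
variable {R : Type*} [CommRing R] {κ : Type*} [Fintype κ] [DecidableEq κ]

lemma alt2 {B : Matrix (Fin 2) (Fin 2) R} (hB : Alt B) : B = !![0, B 0 1; - B 0 1, 0] := by
  have h := congrFun (congrFun hB.1 0) 1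
  simp only [transpose_apply, Matrix.neg_apply] at h
  ext i j
  fin_cases i <;> fin_cases j
  · simpa using hB.2 0
  · simp
  · simpa using h
  · simpa using hB.2 1

/-- step 1: make the entry `(0, 1)` a unit -/
lemma step1 (hR : SR R) (A : Matrix (Fin 2 ⊕ κ) (Fin 2 ⊕ κ) R) (hA : Alt A)
    (hd : IsUnit A.det) : ∃ B : Matrix (Fin 2 ⊕ κ) (Fin 2 ⊕ κ) R, Cg B A ∧
      IsUnit (B (Sum.inl 0) (Sum.inl 1)) := by
  have h1 : A * A⁻¹ = 1 := mul_nonsing_inv A hd
  have h2 := congrFun (congrFun h1 (Sum.inl 0)) (Sum.inl 0)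
  rw [Matrix.mul_apply, Fintype.sum_sum_type, Fin.sum_univ_two, hA.2, Matrix.one_apply_eq,
    zero_mul, zero_add] at h2
  obtain ⟨c, hc⟩ := hR (A (Sum.inl 0) (Sum.inl 1))
    (∑ j : κ, A (Sum.inl 0) (Sum.inr j) * A⁻¹ (Sum.inr j) (Sum.inl 0)) (by
      refine ⟨A⁻¹ (Sum.inl 1) (Sum.inl 0), 1, ?_⟩
      linear_combination h2)
  set X : Matrix (Fin 2) κ R := Matrix.of fun i j =>
    if i = 1 then c * A⁻¹ (Sum.inr j) (Sum.inl 0) else 0 with hX
  refine ⟨fromBlocks 1 X 0 1 * A * (fromBlocks 1 X 0 1)ᵀ, ⟨fromBlocks 1 X 0 1, ?_, rfl⟩, ?_⟩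
  · rw [det_fromBlocks_zero₂₁]; simp
  · have e1 : (fromBlocks 1 X 0 1 * A * (fromBlocks 1 X 0 1)ᵀ :
        Matrix (Fin 2 ⊕ κ) (Fin 2 ⊕ κ) R) (Sum.inl 0) (Sum.inl 1) =
        A (Sum.inl 0) (Sum.inl 1) + c * ∑ j : κ, A (Sum.inl 0) (Sum.inr j) *
          A⁻¹ (Sum.inr j) (Sum.inl 0) := by
      have e0 : ∀ y, (fromBlocks 1 X 0 1 * A : Matrix (Fin 2 ⊕ κ) (Fin 2 ⊕ κ) R) (Sum.inl 0) y
          = A (Sum.inl 0) y := by
        intro y
        rw [Matrix.mul_apply, Fintype.sum_sum_type, Fin.sum_univ_two]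
        simp [hX]
      rw [Matrix.mul_apply, Fintype.sum_sum_type, Fin.sum_univ_two]
      simp only [e0]
      simp only [transpose_apply, fromBlocks_apply₁₁, fromBlocks_apply₁₂, hX, Matrix.of_apply,
        if_true, Finset.mul_sum]
      rw [Matrix.one_apply_ne (by decide), Matrix.one_apply_eq, mul_zero, zero_add, mul_one]
      congr 1
      refine Finset.sum_congr rfl fun j _ => ?_
      ring
    rw [e1]
    exact hc

/-- steps 2 and 3: split off a hyperbolic plane -/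
lemma step2 (A : Matrix (Fin 2 ⊕ κ) (Fin 2 ⊕ κ) R) (hA : Alt A)
    (hu : IsUnit (A (Sum.inl 0) (Sum.inl 1))) :
    ∃ D : Matrix κ κ R, Cg A (fromBlocks (J1 R) 0 0 D) := by
  obtain ⟨A11, A12, A21, A22, rfl⟩ : ∃ A11 A12 A21 A22, A = fromBlocks A11 A12 A21 A22 :=
    ⟨_, _, _, _, (fromBlocks_toBlocks A).symm⟩
  have h11 : Alt A11 := by
    refine ⟨?_, fun i => hA.2 (Sum.inl i)⟩
    ext i j
    exact congrFun (congrFun hA.1 (Sum.inl i)) (Sum.inl j)
  have hA11 := alt2 h11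
  set u := A11 0 1 with hudef
  have hu' : IsUnit u := hu
  have hdet : IsUnit A11.det := by
    rw [hA11, det_fin_two_of]
    have : (0 : R) * 0 - u * -u = u * u := by ring
    rw [this]
    exact hu'.mul hu'
  set Y : Matrix κ (Fin 2) R := - (A21 * A11⁻¹) with hY
  have hP : IsUnit (fromBlocks 1 0 Y 1 : Matrix (Fin 2 ⊕ κ) (Fin 2 ⊕ κ) R).det := by
    rw [det_fromBlocks_zero₁₂]; simp
  set C := fromBlocks 1 0 Y 1 * fromBlocks A11 A12 A21 A22 *
    (fromBlocks 1 0 Y 1 : Matrix (Fin 2 ⊕ κ) (Fin 2 ⊕ κ) R)ᵀ with hC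
  have hCA : Cg C (fromBlocks A11 A12 A21 A22) := ⟨_, hP, rfl⟩
  have hCalt : Alt C := hCA.alt hA
  have hYA : Y * A11 + A21 = 0 := by
    rw [hY, Matrix.neg_mul, Matrix.mul_assoc, nonsing_inv_mul _ hdet]
    simp
  have hCb : ∃ E D, C = fromBlocks A11 E 0 D := by
    refine ⟨A11 * Yᵀ + A12, Y * A11 * Yᵀ + A21 * Yᵀ + Y * A12 + A22, ?_⟩
    rw [hC, fromBlocks_transpose, fromBlocks_multiply, fromBlocks_multiply]
    simp only [Matrix.one_mul, Matrix.zero_mul, add_zero, zero_add, Matrix.transpose_one,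
      Matrix.mul_one, Matrix.transpose_zero, Matrix.mul_zero]
    congr 1
    rw [Matrix.add_mul]
    abel
  obtain ⟨E, D, hED⟩ := hCb
  have hE : E = 0 := by
    have h := hCalt.1
    rw [hED, fromBlocks_transpose, fromBlocks_neg] at h
    have h2 := (fromBlocks_inj.mp h).2.1
    simp only [Matrix.transpose_zero] at h2
    rw [eq_comm, neg_eq_zero] at h2
    exact h2
  subst hE
  refine ⟨D, hCA.symm.trans ?_⟩
  refine ⟨fromBlocks !![1, 0; 0, u] 0 0 1, ?_, ?_⟩
  · rw [det_fromBlocks_zero₁₂, det_fin_two_of]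
    simpa using hu'
  · rw [hED, fromBlocks_transpose, fromBlocks_multiply, fromBlocks_multiply]
    simp only [Matrix.one_mul, Matrix.zero_mul, add_zero, zero_add, Matrix.transpose_one,
      Matrix.mul_one, Matrix.transpose_zero, Matrix.mul_zero]
    congr 1
    rw [hA11]
    ext i j
    fin_cases i <;> fin_cases j <;> simp [J1, Matrix.mul_apply, Fin.sum_univ_two]

lemma split (hR : SR R) (A : Matrix (Fin 2 ⊕ κ) (Fin 2 ⊕ κ) R) (hA : Alt A)
    (hd : IsUnit A.det) : ∃ D : Matrix κ κ R, Alt D ∧ IsUnit D.det ∧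
      Cg A (fromBlocks (J1 R) 0 0 D) := by
  obtain ⟨B, hB, hu⟩ := step1 hR A hA hd
  obtain ⟨D, hD⟩ := step2 B (hB.alt hA) hu
  have h1 : Cg A (fromBlocks (J1 R) 0 0 D) := hB.symm.trans hD
  have h2 : Alt (fromBlocks (J1 R) 0 0 D) := h1.symm.alt hA
  have h3 := h1.det hd
  refine ⟨D, ⟨?_, fun i => h2.2 (Sum.inr i)⟩, ?_, h1⟩
  · ext i j
    exact congrFun (congrFun h2.1 (Sum.inr i)) (Sum.inr j)
  · rw [det_fromBlocks_zero₁₂] at h3
    exact isUnit_of_mul_isUnit_right h3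

end

/-- reindexing -/
def eqv (g : ℕ) : Fin 2 ⊕ (Fin g ⊕ Fin g) ≃ Fin (g + 1) ⊕ Fin (g + 1) where
  toFun := Sum.elim ![Sum.inl 0, Sum.inr 0]
    (Sum.elim (fun i => Sum.inl i.succ) (fun i => Sum.inr i.succ))
  invFun := Sum.elim (Fin.cases (Sum.inl 0) (fun i => Sum.inr (Sum.inl i)))
    (Fin.cases (Sum.inl 1) (fun i => Sum.inr (Sum.inr i)))
  left_inv := by
    rintro (i | i | i)
    · fin_cases i <;> simp
    · simp
    · simp
  right_inv := by
    rintro (i | i)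
    · refine Fin.cases ?_ (fun i => ?_) i <;> simp
    · refine Fin.cases ?_ (fun i => ?_) i <;> simp

lemma Jm_reindex (R : Type*) [CommRing R] (g : ℕ) :
    (Jm (g + 1) R).submatrix (eqv g) (eqv g) = fromBlocks (J1 R) 0 0 (Jm g R) := by
  ext i j
  rcases i with i | i | i <;> rcases j with j | j | j
  · fin_cases i <;> fin_cases j <;> simp [eqv, Jm, J1]
  · fin_cases i <;> simp [eqv, Jm, J1, (Fin.succ_ne_zero _).symm]
  · fin_cases i <;> simp [eqv, Jm, J1, (Fin.succ_ne_zero _).symm]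
  · fin_cases j <;> simp [eqv, Jm, J1, Fin.succ_ne_zero]
  · simp [eqv, Jm, J1]
  · simp [eqv, Jm, J1, Matrix.one_apply]
  · fin_cases j <;> simp [eqv, Jm, J1, Fin.succ_ne_zero]
  · simp [eqv, Jm, J1, Matrix.one_apply]
  · simp [eqv, Jm, J1]

theorem main : NFU := by
  intro R _ hR g
  induction g with
  | zero =>
    intro A _ _
    refine ⟨1, by simp, ?_⟩
    ext i
    exact i.elim (fun x => x.elim0) (fun x => x.elim0)
  | succ g ih =>
    intro A hA hd
    set A' : Matrix (Fin 2 ⊕ (Fin g ⊕ Fin g)) (Fin 2 ⊕ (Fin g ⊕ Fin g)) R :=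
      A.submatrix (eqv g) (eqv g) with hA'
    have hA'alt : Alt A' := by
      refine ⟨?_, fun i => hA.2 _⟩
      ext i j
      exact congrFun (congrFun hA.1 (eqv g i)) (eqv g j)
    have hA'det : IsUnit A'.det := by
      rw [hA', det_submatrix_equiv_self]; exact hd
    obtain ⟨D, hD1, hD2, hD3⟩ := split hR A' hA'alt hA'det
    obtain ⟨Q, hQ1, hQ2⟩ := ih D hD1 hD2
    have h1 : Cg (fromBlocks (J1 R) 0 0 D) (fromBlocks (J1 R) 0 0 (Jm g R)) := by
      refine ⟨fromBlocks 1 0 0 Q, ?_, ?_⟩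
      · rw [det_fromBlocks_zero₁₂]; simpa using hQ1
      · rw [fromBlocks_transpose, fromBlocks_multiply, fromBlocks_multiply]
        simp only [Matrix.one_mul, Matrix.zero_mul, add_zero, zero_add, Matrix.transpose_one,
          Matrix.mul_one, Matrix.transpose_zero, Matrix.mul_zero]
        rw [← hQ2]
    obtain ⟨P, hP1, hP2⟩ := hD3.trans h1
    refine ⟨P.submatrix (eqv g).symm (eqv g).symm, ?_, ?_⟩
    · rw [det_submatrix_equiv_self]; exact hP1
    · have e1 : A = A'.submatrix (eqv g).symm (eqv g).symm := by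
        rw [hA', submatrix_submatrix]; simp
      rw [← Jm_reindex] at hP2
      rw [e1, hP2, ← submatrix_mul_equiv _ _ _ (eqv g).symm _,
        ← submatrix_mul_equiv _ _ _ (eqv g).symm _, submatrix_submatrix, transpose_submatrix]
      simp

end Pool.Agent.W249.PI

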